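import Pool.Agent.J6H54.LG.Scale

/-!
# Nearly algebraic numbers and joint measures
-/

set_option autoImplicit false

open Filter Topology Set

namespace Pool.Agent.J6H54.LG

open Pool.Agent.N743.SS
open Pool.Agent.R352.E (clF)

/-- a nonzero polynomial with integer coefficients of degree at most `D` in both variables and of
height at most `H` takes a value of size at most `ε` at `(a, y)` -/
def Near (D : ℕ) (H ε a y : ℝ) : Prop := ∃ c : Fin (D + 1) → Fin (D + 1) → ℤ, c ≠ 0 ∧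
  (∀ i j, |(c i j : ℝ)| ≤ H) ∧ |∑ i, ∑ j, (c i j : ℝ) * a ^ (i : ℕ) * y ^ (j : ℕ)| ≤ ε

theorem near_alg (h : ℕ → ℝ) [hS : Sc h] {a y : ℝ} (ha : Transcendental (R0 h) (ph h a)) {D : ℕ}
    (hn : ∀ᶠ n in (U : Filter ℕ), Near D (h n) (1 / h n ^ n) a y) : y ∈ clP (R0 h) (ph h) {a} := by
  classical
  have hch : ∀ n, ∃ c : Fin (D + 1) → Fin (D + 1) → ℤ, Near D (h n) (1 / h n ^ n) a y → c ≠ 0 ∧
      (∀ i j, |(c i j : ℝ)| ≤ h n) ∧
      |∑ i, ∑ j, (c i j : ℝ) * a ^ (i : ℕ) * y ^ (j : ℕ)| ≤ 1 / h n ^ n := by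
    intro n
    by_cases hh : Near D (h n) (1 / h n ^ n) a y
    · obtain ⟨c, hc⟩ := hh
      exact ⟨c, fun _ => hc⟩
    · exact ⟨0, fun h0 => absurd h0 hh⟩
  choose c hc using hch
  have hsz : ∀ i j, ∀ᶠ n in (U : Filter ℕ), |(c n i j : ℝ)| ≤ h n ^ 1 := by
    intro i j
    filter_upwards [hn] with n hn
    rw [pow_one]
    exact (hc n hn).2.1 i j
  let z : Fin (D + 1) → Fin (D + 1) → Ov h := fun i j => ⟨co (fun n => (c n i j : ℝ)), seq_mem h (hsz i j)⟩
  have hzR : ∀ i j, res h (z i j) ∈ R0 h := fun i j => ⟨z i j, ⟨fun n => c n i j, rfl⟩, rfl⟩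
  let r : Fin (D + 1) → Fin (D + 1) → R0 h := fun i j => ⟨res h (z i j), hzR i j⟩
  -- a nonzero coefficient
  obtain ⟨i0, j0, h0⟩ : ∃ i0 j0, ∀ᶠ n in (U : Filter ℕ), c n i0 j0 ≠ 0 := by
    have h1 : ∀ᶠ n in (U : Filter ℕ), ∃ p : Fin (D + 1) × Fin (D + 1), c n p.1 p.2 ≠ 0 := by
      filter_upwards [hn] with n hn
      by_contra hcon
      push Not at hcon
      exact (hc n hn).1 (by funext i j; exact hcon (i, j))
    rw [Ultrafilter.eventually_exists_iff] at h1
    obtain ⟨p, hp⟩ := h1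
    exact ⟨p.1, p.2, hp⟩
  have hr0 : r i0 j0 ≠ 0 := by
    intro hr
    exact seq_ne_zero h (hsz i0 j0) h0 (congrArg Subtype.val hr)
  -- the relation
  have hrel : ∑ i, ∑ j, (r i j : KK h) * ph h a ^ (i : ℕ) * ph h y ^ (j : ℕ) = 0 := by
    have e1 : ∑ i, ∑ j, (r i j : KK h) * ph h a ^ (i : ℕ) * ph h y ^ (j : ℕ) =
        res h (∑ i, ∑ j, z i j * ⟨cst (a ^ (i : ℕ) * y ^ (j : ℕ)), cst_mem h _⟩) := by
      rw [map_sum]
      refine Finset.sum_congr rfl fun i _ => ?_
      rw [map_sum]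
      refine Finset.sum_congr rfl fun j _ => ?_
      rw [map_mul, mul_assoc]
      change _ = res h (z i j) * ph h (a ^ (i : ℕ) * y ^ (j : ℕ))
      rw [map_mul, map_pow, map_pow]
    rw [e1, res_eq_zero]
    intro A
    have e2 : ((∑ i, ∑ j, z i j * ⟨cst (a ^ (i : ℕ) * y ^ (j : ℕ)), cst_mem h _⟩ : Ov h) : HR) =
        co (fun n => ∑ i, ∑ j, (c n i j : ℝ) * a ^ (i : ℕ) * y ^ (j : ℕ)) := by
      have e3 : (fun n => ∑ i, ∑ j, (c n i j : ℝ) * a ^ (i : ℕ) * y ^ (j : ℕ)) =
          ∑ i, ∑ j, (fun n => (c n i j : ℝ)) * (fun _ => a ^ (i : ℕ) * y ^ (j : ℕ)) := by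
        funext n
        rw [Finset.sum_apply]
        refine Finset.sum_congr rfl fun i _ => ?_
        rw [Finset.sum_apply]
        refine Finset.sum_congr rfl fun j _ => ?_
        simp only [Pi.mul_apply]
        ring
      rw [AddSubmonoidClass.coe_finsetSum, e3, map_sum]
      refine Finset.sum_congr rfl fun i _ => ?_
      rw [AddSubmonoidClass.coe_finsetSum, map_sum]
      refine Finset.sum_congr rfl fun j _ => ?_
      exact (map_mul co (fun n => (c n i j : ℝ)) (fun _ => a ^ (i : ℕ) * y ^ (j : ℕ))).symm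
    rw [e2, co_abs, ← map_pow, ← map_mul, ← map_one co, co_lt]
    have hge : ∀ᶠ n in (U : Filter ℕ), A + 1 ≤ n :=
      Filter.Eventually.filter_mono Nat.hyperfilter_le_atTop (eventually_ge_atTop _)
    filter_upwards [hn, hge] with n hn hge
    have h2 := hS.two_le n
    have h3 : 0 < h n := by linarith
    have h4 := (hc n hn).2.2
    simp only [Pi.mul_apply, Pi.pow_apply, Pi.one_apply]
    calc |∑ i, ∑ j, (c n i j : ℝ) * a ^ (i : ℕ) * y ^ (j : ℕ)| * h n ^ A
        ≤ 1 / h n ^ n * h n ^ A := mul_le_mul_of_nonneg_right h4 (by positivity)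
      _ ≤ 1 / h n ^ (A + 1) * h n ^ A := by
          refine mul_le_mul_of_nonneg_right ?_ (by positivity)
          exact one_div_le_one_div_of_le (by positivity) (pow_le_pow_right₀ (by linarith) hge)
      _ = 1 / h n := by
          rw [pow_succ]
          field_simp
      _ < 1 := by
          rw [div_lt_one h3]
          linarith
  -- the polynomial
  rw [mem_clP', image_singleton]
  let R' := Algebra.adjoin (R0 h) ({ph h a} : Set (KK h))
  let b : Fin (D + 1) → R' := fun j => ∑ i, algebraMap (R0 h) R' (r i j) *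
    (⟨ph h a, Algebra.subset_adjoin rfl⟩ : R') ^ (i : ℕ)
  have hb : ∀ j, ((b j : R') : KK h) = ∑ i, (r i j : KK h) * ph h a ^ (i : ℕ) := by
    intro j
    rw [AddSubmonoidClass.coe_finsetSum]
    rfl
  have hb0 : b j0 ≠ 0 := by
    intro hcon
    have h1 : ∑ i, (r i j0 : KK h) * ph h a ^ (i : ℕ) = 0 := by rw [← hb, hcon]; rfl
    refine ha ⟨∑ i : Fin (D + 1), Polynomial.C (r i j0) * Polynomial.X ^ (i : ℕ), ?_, ?_⟩
    · intro h2
      apply hr0
      have h3 := congrArg (fun q => Polynomial.coeff q (i0 : ℕ)) h2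
      simp only [Polynomial.finsetSum_coeff, Polynomial.coeff_C_mul, Polynomial.coeff_X_pow,
        Polynomial.coeff_zero] at h3
      rw [Finset.sum_eq_single i0] at h3
      · simpa using h3
      · intro i _ hi
        rw [if_neg, mul_zero]
        intro h4
        exact hi (Fin.ext h4.symm)
      · intro h4
        exact absurd (Finset.mem_univ _) h4
    · rw [map_sum, ← h1]
      refine Finset.sum_congr rfl fun i _ => ?_
      rw [map_mul, Polynomial.aeval_C, map_pow, Polynomial.aeval_X]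
      rfl
  refine ⟨∑ j : Fin (D + 1), Polynomial.C (b j) * Polynomial.X ^ (j : ℕ), ?_, ?_⟩
  · intro h2
    apply hb0
    have h3 := congrArg (fun q => Polynomial.coeff q (j0 : ℕ)) h2
    simp only [Polynomial.finsetSum_coeff, Polynomial.coeff_C_mul, Polynomial.coeff_X_pow,
      Polynomial.coeff_zero] at h3
    rw [Finset.sum_eq_single j0] at h3
    · simpa using h3
    · intro j _ hj
      rw [if_neg, mul_zero]
      intro h4
      exact hj (Fin.ext h4.symm)
    · intro h4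
      exact absurd (Finset.mem_univ _) h4
  · rw [map_sum, ← hrel, Finset.sum_comm]
    refine Finset.sum_congr rfl fun j _ => ?_
    rw [map_mul, Polynomial.aeval_C, map_pow, Polynomial.aeval_X, ← Finset.sum_mul]
    congr 1
    exact hb j

/-- **Joint measures** -/
theorem joint {ι κ : Type} [Fintype ι] [Fintype κ] (a : ℝ)
    (ha : ∀ (h : ℕ → ℝ) [Sc h], Transcendental (R0 h) (ph h a)) (x : ι → ℝ)
    (hx : ∀ (h : ℕ → ℝ) [Sc h], AlgebraicIndependent (R0 h) (ph h ∘ x)) (y : κ → ℝ)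
    (hxy : ∀ i, x i ∈ clF ({a} ∪ range y)) (D : ℕ) : ∃ C : ℕ, ∀ H : ℝ, 2 ≤ H → ∀ S : Finset κ,
      (∀ k ∈ S, Near D H (1 / H ^ C) a (y k)) → Fintype.card ι + S.card ≤ 1 + Fintype.card κ := by
  classical
  by_contra hcon
  push Not at hcon
  choose h h2 S hS hcard using hcon
  have : Sc h := ⟨h2⟩
  obtain ⟨S0, hS0⟩ : ∃ S0, ∀ᶠ n in (U : Filter ℕ), S n = S0 := by
    rw [← Ultrafilter.eventually_exists_iff]
    exact Eventually.of_forall fun n => ⟨_, rfl⟩
  have key := count_gen (hx h) (a := a) S0 (fun k hk => near_alg h (ha h) (by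
    filter_upwards [hS0] with n hn
    refine hS n k ?_
    rw [hn]
    exact hk)) (fun i => clF_le_clP _ (hxy i))
  obtain ⟨n, hn⟩ := hS0.exists
  have h3 := hcard n
  rw [hn] at h3
  omega

end Pool.Agent.J6H54.LG
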