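import Pool.Agent.R352.E.Mat

/-!
# Real numbers in an extension field: algebraic dependence over a ring, the matroid and its closure

`φ` is an embedding of the real numbers into a field `E` which is an algebra over `R`. The dependence
of real numbers is the algebraic dependence over `R` of their images.
-/

set_option autoImplicit false

open Set

namespace Pool.Agent.J6H54.LG

open Pool.Agent.R352.E (clF mem_clF subset_clF clF_mono)

section Cl

variable (R : Type*) {E : Type*} [CommRing R] [Field E] [Algebra R E] [FaithfulSMul R E]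

/-- the matroid of algebraic independence over `R` -/
noncomputable abbrev Mk (R : Type*) (E : Type*) [CommRing R] [Field E] [Algebra R E]
    [FaithfulSMul R E] : Matroid E := AlgebraicIndependent.matroid R E

lemma mem_cl_iff {S : Set E} {x : E} :
    x ∈ (Mk R E).closure S ↔ IsAlgebraic (Algebra.adjoin R S) x := by
  rw [AlgebraicIndependent.matroid_closure_eq]
  exact Iff.rfl

/-- the algebraic closure of the field generated by `R` and `S` in `E` -/
noncomputable def clR (S : Set E) : Subfield E where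
  carrier := (Mk R E).closure S
  mul_mem' := fun ha hb => (mem_cl_iff R).2 (((mem_cl_iff R).1 ha).mul ((mem_cl_iff R).1 hb))
  one_mem' := (mem_cl_iff R).2 isAlgebraic_one
  add_mem' := fun ha hb => (mem_cl_iff R).2 (((mem_cl_iff R).1 ha).add ((mem_cl_iff R).1 hb))
  zero_mem' := (mem_cl_iff R).2 isAlgebraic_zero
  neg_mem' := fun ha => (mem_cl_iff R).2 ((mem_cl_iff R).1 ha).neg
  inv_mem' := fun _ ha => (mem_cl_iff R).2 ((mem_cl_iff R).1 ha).inv

variable {R}

lemma subset_clR (S : Set E) : S ⊆ clR R S := Matroid.subset_closure (Mk R E) S (subset_univ _)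

lemma clR_mono {S T : Set E} (h : S ⊆ T) : clR R S ≤ clR R T :=
  Matroid.closure_subset_closure (Mk R E) h

lemma clR_le {S T : Set E} (h : S ⊆ clR R T) : clR R S ≤ clR R T :=
  Matroid.closure_subset_closure_of_subset_closure h

/-- the field `clR R S` is algebraically closed in `E` -/
lemma clR_closed {S : Set E} {x : E} (h : IsAlgebraic (clR R S) x) : x ∈ clR R S := by
  have h1 : (Mk R E).closure (clR R S : Set E) = (Mk R E).closure S :=
    Matroid.closure_closure _ _
  change x ∈ (Mk R E).closure S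
  rw [← h1, mem_cl_iff]
  obtain ⟨p, hp0, hp⟩ := h
  let f : clR R S →+* Algebra.adjoin R (clR R S : Set E) :=
    { toFun := fun y => ⟨y, Algebra.subset_adjoin y.2⟩
      map_one' := rfl
      map_mul' := fun _ _ => rfl
      map_zero' := rfl
      map_add' := fun _ _ => rfl }
  have hf : Function.Injective f := f.injective
  refine ⟨p.map f, (Polynomial.map_ne_zero_iff hf).2 hp0, ?_⟩
  rw [← hp, Polynomial.aeval_def, Polynomial.aeval_def, Polynomial.eval₂_map]
  rfl

end Cl

section Phi

variable {R E : Type*} [CommRing R] [Field E] [Algebra R E] [FaithfulSMul R E] (φ : ℝ →+* E)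

variable (R) in
/-- the real numbers whose image is algebraic over `R` and the image of `S` -/
noncomputable def clP (S : Set ℝ) : Subfield ℝ := (clR R (φ '' S)).comap φ

lemma mem_clP {S : Set ℝ} {x : ℝ} : x ∈ clP R φ S ↔ φ x ∈ clR R (φ '' S) := Iff.rfl

lemma mem_clP' {S : Set ℝ} {x : ℝ} :
    x ∈ clP R φ S ↔ IsAlgebraic (Algebra.adjoin R (φ '' S)) (φ x) := mem_cl_iff R

variable {φ}

lemma subset_clP (S : Set ℝ) : S ⊆ clP R φ S := fun _ hx => subset_clR _ (mem_image_of_mem φ hx)

lemma clP_mono {S T : Set ℝ} (h : S ⊆ T) : clP R φ S ≤ clP R φ T := fun _ hx =>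
  clR_mono (image_mono h) hx

lemma clP_le {S T : Set ℝ} (h : S ⊆ clP R φ T) : clP R φ S ≤ clP R φ T := by
  intro x hx
  refine clR_le (S := φ '' S) ?_ hx
  rintro _ ⟨y, hy, rfl⟩
  exact h hy

/-- closures over the rational numbers stay inside -/
lemma cl_cl {S : Set ℝ} : clF (clP R φ S : Set ℝ) = clP R φ S := by
  refine le_antisymm ?_ (subset_clF _)
  intro x hx
  rw [mem_clF] at hx
  refine clR_closed ?_
  obtain ⟨p, hp0, hp⟩ := hx
  have hle : ∀ y : ℝ, y ∈ IntermediateField.adjoin ℚ (clP R φ S : Set ℝ) → y ∈ clP R φ S := by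
    intro y hy
    have h1 : IntermediateField.adjoin ℚ (clP R φ S : Set ℝ) ≤
        (clP R φ S).toIntermediateField (fun q => SubfieldClass.ratCast_mem _ q) :=
      IntermediateField.adjoin_le_iff.2 (fun z hz => hz)
    exact h1 hy
  let f : IntermediateField.adjoin ℚ (clP R φ S : Set ℝ) →+* clR R (φ '' S) :=
    { toFun := fun y => ⟨φ y, hle y y.2⟩
      map_one' := Subtype.ext (map_one φ)
      map_mul' := fun a b => Subtype.ext (map_mul φ _ _)
      map_zero' := Subtype.ext (map_zero φ)
      map_add' := fun a b => Subtype.ext (map_add φ _ _) }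
  have hf : Function.Injective f := f.injective
  refine ⟨p.map f, (Polynomial.map_ne_zero_iff hf).2 hp0, ?_⟩
  rw [Polynomial.aeval_def] at hp ⊢
  rw [Polynomial.eval₂_map, ← map_zero φ, ← hp, Polynomial.hom_eval₂]
  rfl

lemma clF_le_clP (S : Set ℝ) : clF S ≤ clP R φ S := by
  refine le_trans (clF_mono (subset_clP (R := R) (φ := φ) S)) ?_
  rw [cl_cl]

lemma card_le {ι : Type*} [Fintype ι] {x : ι → ℝ} (hx : AlgebraicIndependent R (φ ∘ x)) {T : Set ℝ}
    (h : ∀ i, x i ∈ clP R φ T) : (Fintype.card ι : ℕ∞) ≤ (Mk R E).eRk (φ '' T) := by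
  have h1 : (Mk R E).Indep (range (φ ∘ x)) := hx.to_subtype_range
  have h2 : range (φ ∘ x) ⊆ (Mk R E).closure (φ '' T) := by
    rintro _ ⟨i, rfl⟩
    exact h i
  have : Nontrivial R := by
    by_contra hcon
    rw [not_nontrivial_iff_subsingleton] at hcon
    have h3 : (1 : E) = 0 := by
      rw [← map_one (algebraMap R E), Subsingleton.elim (1 : R) 0, map_zero]
    exact one_ne_zero h3
  calc (Fintype.card ι : ℕ∞) = (range (φ ∘ x)).encard := by
        rw [← image_univ, hx.injective.injOn.encard_image, encard_univ, ENat.card_eq_coe_fintype_card]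
    _ ≤ (Mk R E).eRk ((Mk R E).closure (φ '' T)) := h1.encard_le_eRk_of_subset h2
    _ = (Mk R E).eRk (φ '' T) := Matroid.eRk_closure_eq (Mk R E) _

/-- as many elements spanning independent elements are independent -/
lemma indep_of_span {ι κ : Type*} [Fintype ι] [Fintype κ] {x : ι → ℝ}
    (hx : AlgebraicIndependent R (φ ∘ x)) {y : κ → ℝ} (h : ∀ i, x i ∈ clP R φ (range y))
    (hc : Fintype.card κ ≤ Fintype.card ι) : AlgebraicIndependent R (φ ∘ y) := by
  have h1 := card_le hx h
  rw [← range_comp] at h1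
  have h2 : (range (φ ∘ y)).encard ≤ Fintype.card κ := by
    rw [← image_univ, ← ENat.card_eq_coe_fintype_card, ← encard_univ]
    exact encard_image_le _ _
  have h3 : (Fintype.card κ : ℕ∞) ≤ (range (φ ∘ y)).encard :=
    (by exact_mod_cast hc : (Fintype.card κ : ℕ∞) ≤ Fintype.card ι).trans
      (h1.trans (Matroid.eRk_le_encard _ _))
  have hfin : (range (φ ∘ y)).Finite := finite_range _
  have h4 : (Mk R E).Indep (range (φ ∘ y)) := by
    refine ((Mk R E).isRkFinite_of_finite hfin).indep_of_encard_le_eRk ?_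
    exact h2.trans ((by exact_mod_cast hc : (Fintype.card κ : ℕ∞) ≤ Fintype.card ι).trans h1)
  have hinj : Function.Injective (φ ∘ y) := by
    rw [← injOn_univ]
    refine Finite.injOn_of_encard_image_eq finite_univ ?_
    rw [image_univ]
    refine le_antisymm (h2.trans ?_) ?_
    · rw [encard_univ, ENat.card_eq_coe_fintype_card]
    · rw [encard_univ, ENat.card_eq_coe_fintype_card]; exact h3
  exact (algebraicIndependent_subtype_range hinj).1 h4

/-- counting -/
lemma count_gen {ι κ : Type*} [Fintype ι] [Fintype κ] {x : ι → ℝ}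
    (hx : AlgebraicIndependent R (φ ∘ x)) {y : κ → ℝ} {a : ℝ} (S : Finset κ)
    (hS : ∀ k ∈ S, y k ∈ clP R φ {a}) (h : ∀ i, x i ∈ clP R φ ({a} ∪ range y)) :
    Fintype.card ι + S.card ≤ 1 + Fintype.card κ := by
  classical
  have h1 : clP R φ ({a} ∪ range y) ≤ clP R φ ({a} ∪ y '' (Sᶜ : Finset κ)) := by
    refine clP_le ?_
    rintro z (hz | ⟨k, rfl⟩)
    · exact subset_clP _ (Or.inl hz)
    · by_cases hk : k ∈ S
      · exact clP_mono subset_union_left (hS k hk)
      · refine subset_clP _ (Or.inr ⟨k, ?_, rfl⟩)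
        simpa using hk
  have h2 := card_le hx (fun i => h1 (h i))
  have h3 : (φ '' ({a} ∪ y '' (Sᶜ : Finset κ)) : Set E).encard ≤ ((1 + (Sᶜ : Finset κ).card : ℕ) : ℕ∞) := by
    refine (encard_image_le _ _).trans ((encard_union_le _ _).trans ?_)
    rw [encard_singleton]
    have e : (((Sᶜ : Finset κ) : Set κ)).encard = ((Sᶜ : Finset κ).card : ℕ∞) :=
      encard_coe_eq_coe_finsetCard _
    rw [Nat.cast_add, Nat.cast_one, ← e]
    exact add_le_add le_rfl (encard_image_le _ _)
  have h4 : (Fintype.card ι : ℕ∞) ≤ ((1 + (Sᶜ : Finset κ).card : ℕ) : ℕ∞) :=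
    h2.trans ((Matroid.eRk_le_encard _ _).trans h3)
  have h5 : Fintype.card ι ≤ 1 + (Sᶜ : Finset κ).card := by exact_mod_cast h4
  rw [Finset.card_compl] at h5
  have h6 := Finset.card_le_univ S
  omega

end Phi

end Pool.Agent.J6H54.LG
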