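import Pool.Agent.J6H54.LG.Near

/-!
# Approximations by algebraic numbers
-/

set_option autoImplicit false

open Polynomial

namespace Pool.Agent.J6H54.LG

/-- `θ` is within `ε` of an algebraic number of degree at most `D` and height at most `H` -/
def Appr (D : ℕ) (H ε θ : ℝ) : Prop := ∃ (α : ℂ) (P : ℤ[X]), P ≠ 0 ∧ P.natDegree ≤ D ∧
  (∀ j, |(P.coeff j : ℝ)| ≤ H) ∧ aeval α P = 0 ∧ ‖(θ : ℂ) - α‖ ≤ ε

lemma pow_sub_bound {x y : ℂ} {M : ℝ} (hM : 1 ≤ M) (hx : ‖x‖ ≤ M) (hy : ‖y‖ ≤ M) (n : ℕ) :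
    ‖x ^ n - y ^ n‖ ≤ n * M ^ n * ‖x - y‖ := by
  induction n with
  | zero => simp
  | succ n ih =>
    have e : x ^ (n + 1) - y ^ (n + 1) = x * (x ^ n - y ^ n) + (x - y) * y ^ n := by ring
    rw [e]
    refine (norm_add_le _ _).trans ?_
    rw [norm_mul, norm_mul, norm_pow]
    have h1 : ‖x‖ * ‖x ^ n - y ^ n‖ ≤ M * (n * M ^ n * ‖x - y‖) :=
      mul_le_mul hx ih (norm_nonneg _) (by linarith)
    have h2 : ‖x - y‖ * ‖y‖ ^ n ≤ ‖x - y‖ * M ^ n :=
      mul_le_mul_of_nonneg_left (pow_le_pow_left₀ (norm_nonneg _) hy n) (norm_nonneg _)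
    have h3 : ‖x - y‖ * M ^ n ≤ ‖x - y‖ * M ^ (n + 1) :=
      mul_le_mul_of_nonneg_left (pow_le_pow_right₀ hM (by omega)) (norm_nonneg _)
    push_cast
    calc ‖x‖ * ‖x ^ n - y ^ n‖ + ‖x - y‖ * ‖y‖ ^ n
        ≤ M * (n * M ^ n * ‖x - y‖) + ‖x - y‖ * M ^ (n + 1) := add_le_add h1 (h2.trans h3)
      _ = _ := by ring

lemma near_of_appr (D : ℕ) (a θ : ℝ) : ∃ B : ℕ, ∀ C : ℕ, ∀ H : ℝ, 2 ≤ H →
    Appr D H (1 / H ^ (C + B)) θ → Near D H (1 / H ^ C) a θ := by
  obtain ⟨M, hM⟩ : ∃ M, M = |θ| + 1 := ⟨_, rfl⟩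
  have hM1 : 1 ≤ M := by
    have := abs_nonneg θ
    linarith
  obtain ⟨B, hB⟩ := pow_unbounded_of_one_lt ((D + 1) * (D * M ^ D)) (one_lt_two)
  refine ⟨B + 1, fun C H hH => ?_⟩
  rintro ⟨α, P, hP0, hdeg, hco, hα, hd⟩
  have hH0 : 0 < H := by linarith
  have hH1 : 1 ≤ H := by linarith
  have hle : 1 / H ^ (C + (B + 1)) ≤ 1 := by
    rw [div_le_one (by positivity)]
    exact one_le_pow₀ hH1
  have hθ : ‖(θ : ℂ)‖ ≤ M := by
    rw [Complex.norm_real, Real.norm_eq_abs]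
    linarith
  have hα' : ‖α‖ ≤ M := by
    have h1 : α = (θ : ℂ) - ((θ : ℂ) - α) := by ring
    rw [h1]
    refine (norm_sub_le _ _).trans ?_
    rw [Complex.norm_real, Real.norm_eq_abs]
    linarith
  -- the value at `θ`
  have hval : |∑ j ∈ Finset.range (D + 1), (P.coeff j : ℝ) * θ ^ j| ≤ 1 / H ^ C := by
    have e1 : ((∑ j ∈ Finset.range (D + 1), (P.coeff j : ℝ) * θ ^ j : ℝ) : ℂ) =
        ∑ j ∈ Finset.range (D + 1), (P.coeff j : ℂ) * ((θ : ℂ) ^ j - α ^ j) := by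
      have e2 : aeval α P = ∑ j ∈ Finset.range (D + 1), (P.coeff j : ℂ) * α ^ j := by
        rw [aeval_eq_sum_range' (Nat.lt_succ_of_le hdeg)]
        refine Finset.sum_congr rfl fun j _ => ?_
        rw [Algebra.smul_def]
        rfl
      rw [hα] at e2
      simp only [mul_sub]
      rw [Finset.sum_sub_distrib, ← e2, sub_zero]
      push_cast
      rfl
    rw [← Real.norm_eq_abs, ← Complex.norm_real, e1]
    have h1 : ‖∑ j ∈ Finset.range (D + 1), (P.coeff j : ℂ) * ((θ : ℂ) ^ j - α ^ j)‖ ≤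
        ∑ j ∈ Finset.range (D + 1), H * (D * M ^ D * (1 / H ^ (C + (B + 1)))) := by
      refine norm_sum_le_of_le _ fun j hj => ?_
      have hj' : j ≤ D := by have := Finset.mem_range.1 hj; omega
      rw [norm_mul]
      refine mul_le_mul ?_ ?_ (norm_nonneg _) hH0.le
      · rw [Complex.norm_intCast]
        exact hco j
      · refine (pow_sub_bound hM1 hθ hα' j).trans ?_
        have h2 : (j : ℝ) * M ^ j ≤ D * M ^ D :=
          mul_le_mul (by exact_mod_cast hj') (pow_le_pow_right₀ hM1 hj') (by positivity) (by positivity)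
        exact mul_le_mul h2 hd (norm_nonneg _) (by positivity)
    refine h1.trans ?_
    rw [Finset.sum_const, Finset.card_range, nsmul_eq_mul]
    push_cast
    have h3 : ((D : ℝ) + 1) * (D * M ^ D) ≤ H ^ B := hB.le.trans (pow_le_pow_left₀ zero_le_two hH B)
    calc ((D : ℝ) + 1) * (H * (D * M ^ D * (1 / H ^ (C + (B + 1)))))
        = (((D : ℝ) + 1) * (D * M ^ D)) * (H * (1 / H ^ (C + (B + 1)))) := by ring
      _ ≤ H ^ B * (H * (1 / H ^ (C + (B + 1)))) := mul_le_mul_of_nonneg_right h3 (by positivity)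
      _ = 1 / H ^ C := by
          rw [pow_add, pow_add]
          field_simp
  refine ⟨fun i j => if (i : ℕ) = 0 then P.coeff j else 0, ?_, fun i j => ?_, ?_⟩
  · intro h0
    apply hP0
    ext j
    by_cases hj : j < D + 1
    · have h1 := congrFun (congrFun h0 0) ⟨j, hj⟩
      simpa using h1
    · rw [coeff_zero, coeff_eq_zero_of_natDegree_lt (by omega)]
  · dsimp only
    split_ifs with hi
    · exact hco _
    · rw [Int.cast_zero, abs_zero]
      exact hH0.le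
  · rw [Finset.sum_eq_single 0]
    · rw [Finset.sum_range] at hval
      simpa using hval
    · intro i _ hi
      refine Finset.sum_eq_zero fun j _ => ?_
      have : (i : ℕ) ≠ 0 := fun h => hi (Fin.ext h)
      dsimp only
      rw [if_neg this, Int.cast_zero, zero_mul, zero_mul]
    · intro h0
      exact absurd (Finset.mem_univ _) h0

end Pool.Agent.J6H54.LG
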