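import Pool.Agent.J6H54.LG.Mat
import Pool.Agent.N743.SS.MultiT
import Pool.Agent.R352.T.Fam
import Pool.Agent.R352.Q.Three

/-!
# Values of the twisted exponential integrals in an extension field
-/

set_option autoImplicit false

open Filter Topology Set MeasureTheory

namespace Pool.Agent.J6H54.LG

open Pool.Agent.R352.E (clF EE EE_mem dl gz dl_one exp_rat_mem zt)
open Pool.Agent.R352.Q (Zk Rk W mem_of_Zk)
open Pool.Agent.R352.T (EA ga NA EA_mem common_den PI)
open Pool.Agent.N743.SS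

section

variable {R E : Type*} [CommRing R] [Field E] [Algebra R E] [FaithfulSMul R E] {φ : ℝ →+* E}

lemma of_powP {S : Set ℝ} {x : ℝ} {n : ℕ} (hn : n ≠ 0) (h : x ^ n ∈ clP R φ S) : x ∈ clP R φ S := by
  rw [← cl_cl] at h ⊢
  exact Pool.Agent.R352.E.of_pow hn h

lemma EA_fin (hφ : ∀ {ι : Type} (x : ι → ℝ), MeasM x → AlgebraicIndependent R (φ ∘ x)) (J : ℕ)
    {k : ℕ} (a x : Fin k → ℚ) (hinj : ∀ i i', a i = a i' → x i = x i' → i = i')
    (ha0 : ∀ i, 0 ≤ a i) (ha1 : ∀ i, a i < 1) (hpos : ∀ i, 0 < x i) :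
    AlgebraicIndependent R (φ ∘ fun o : Option (Fin J × Fin k) =>
      o.elim (Real.exp 1) (fun p => EA (a p.2) (p.1 + 1) (x p.2))) := by
  set q : ℕ := (∏ i, (x i).den) * ∏ i, (a i).den with hqd
  have hq : 1 ≤ q := Nat.one_le_iff_ne_zero.2 (Nat.mul_ne_zero
    (Finset.prod_ne_zero_iff.2 fun i _ => (x i).den_ne_zero)
    (Finset.prod_ne_zero_iff.2 fun i _ => (a i).den_ne_zero))
  have hq' : (q : ℝ) ≠ 0 := by positivity
  have hqp : (0 : ℝ) < q := by positivity
  have h1 := common_den x (fun i => (hpos i).le) q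
    (fun i => (Finset.dvd_prod_of_mem (fun i => (x i).den) (Finset.mem_univ i)).trans
      (dvd_mul_right _ _)) hq
  have h2 := common_den a ha0 q
    (fun i => (Finset.dvd_prod_of_mem (fun i => (a i).den) (Finset.mem_univ i)).trans
      (dvd_mul_left _ _)) hq
  choose mm hmm using h1
  choose cc hcc using h2
  have hinj' : ∀ i i', mm i = mm i' → cc i = cc i' → i = i' := by
    intro i j hij hij'
    apply hinj
    · have h1 := hcc i
      rw [hij', hcc j] at h1
      exact_mod_cast h1.symm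
    · have h1 := hmm i
      rw [hij, hmm j] at h1
      exact_mod_cast h1.symm
  have hpos' : ∀ i, 1 ≤ mm i := by
    intro i
    by_contra h
    have h0 : mm i = 0 := by omega
    have h1 := hmm i
    rw [h0, Nat.cast_zero, zero_div] at h1
    have : (0 : ℝ) < x i := by exact_mod_cast hpos i
    linarith
  have hcq : ∀ i, cc i < q := by
    intro i
    have h1 := hcc i
    have h3 : ((a i : ℚ) : ℝ) < 1 := by exact_mod_cast ha1 i
    rw [← h1, div_lt_one hqp] at h3
    exact_mod_cast h3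
  have h := hφ _ (measM_EA J k mm cc hinj' hpos' hq hcq)
  refine indep_of_span h (fun o => ?_) le_rfl
  cases o with
  | none =>
    simp only [Option.elim]
    refine of_powP (n := q) (by omega) ?_
    rw [← Real.exp_nat_mul]
    have h1 : (q : ℝ) * (-1 / q) = -1 := by field_simp
    rw [h1, Real.exp_neg]
    exact (clP R φ _).inv_mem (subset_clP _ ⟨none, rfl⟩)
  | some p =>
    simp only [Option.elim]
    rw [hmm p.2, hcc p.2]
    exact subset_clP _ ⟨some p, rfl⟩

/-- the values: `E_1(x)` and the incomplete zeta values for `a = 0`, `E_{a,l+1}(x)` for `a > 0` -/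
noncomputable def V (p : ℕ × ℚ × ℚ) : ℝ := if p.2.1 = 0 then W p.1 p.2.2 else EA p.2.1 (p.1 + 1) p.2.2

lemma EA_zero (l : ℕ) (x : ℝ) : EA 0 l x = EE l x := by
  rw [EA, EE]
  simp

lemma V_fin (hφ : ∀ {ι : Type} (x : ι → ℝ), MeasM x → AlgebraicIndependent R (φ ∘ x)) (J : ℕ)
    {k : ℕ} (a x : Fin k → ℚ) (hinj : ∀ i i', a i = a i' → x i = x i' → i = i')
    (ha0 : ∀ i, 0 ≤ a i) (ha1 : ∀ i, a i < 1) (hpos : ∀ i, 0 < x i) :
    AlgebraicIndependent R (φ ∘ fun o : Option (Fin J × Fin k) =>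
      o.elim (Real.exp 1) (fun p => V ((p.1 : ℕ), a p.2, x p.2))) := by
  refine indep_of_span (EA_fin hφ J a x hinj ha0 ha1 hpos) (fun o => ?_) le_rfl
  have he : Real.exp 1 ∈ clP R φ (range fun o : Option (Fin J × Fin k) =>
      o.elim (Real.exp 1) (fun p => V ((p.1 : ℕ), a p.2, x p.2))) := subset_clP _ ⟨none, rfl⟩
  cases o with
  | none => exact he
  | some p =>
    have hJ := p.1.2
    simp only [Option.elim]
    by_cases h0 : a p.2 = 0
    · have hw : ∀ l : Fin J, W l (x p.2) ∈ clP R φ (range fun o : Option (Fin J × Fin k) =>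
          o.elim (Real.exp 1) (fun p => V ((p.1 : ℕ), a p.2, x p.2))) := by
        intro l
        refine subset_clP _ ⟨some (l, p.2), ?_⟩
        simp only [Option.elim, V]
        rw [if_pos h0]
      rw [h0, Rat.cast_zero, EA_zero, ← cl_cl]
      refine mem_of_Zk (hpos p.2) ?_ ?_ (J := J) (by omega) (fun k hk hk' => ?_) (p.1 + 1) (by omega)
      · rw [cl_cl]
        exact he
      · rw [cl_cl]
        have h1 := hw ⟨0, by omega⟩
        have e : W ((⟨0, by omega⟩ : Fin J) : ℕ) (x p.2) = EE 1 (x p.2) := by simp [W]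
        rw [e] at h1
        exact h1
      · rw [cl_cl]
        have := hw ⟨k - 1, by omega⟩
        simp only [W] at this
        rw [if_neg (by omega), Nat.sub_add_cancel (by omega)] at this
        exact this
    · refine subset_clP _ ⟨some p, ?_⟩
      simp only [V]
      rw [if_neg h0]

/-- **Independence** of `e` and all of the values -/
theorem V_all (hφ : ∀ {ι : Type} (x : ι → ℝ), MeasM x → AlgebraicIndependent R (φ ∘ x)) :
    AlgebraicIndependent R (φ ∘ fun o : Option PI => o.elim (Real.exp 1) (fun p => V p.1)) := by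
  classical
  refine algebraicIndependent_of_finite_type fun t ht => ?_
  let s : Finset (ℕ × ℚ × ℚ) := ht.toFinset.biUnion fun o => o.elim ∅ (fun p => {p.1})
  have hs : ∀ p : PI, some p ∈ t → p.1 ∈ s := by
    intro p hp
    refine Finset.mem_biUnion.2 ⟨some p, ht.mem_toFinset.2 hp, ?_⟩
    simp
  let J : ℕ := s.sup Prod.fst + 1
  let Y : Finset (ℚ × ℚ) := (s.image Prod.snd).filter (fun y => 0 ≤ y.1 ∧ y.1 < 1 ∧ 0 < y.2)
  have hJ : ∀ p : PI, some p ∈ t → p.1.1 < J := fun p hp =>
    Nat.lt_succ_of_le (Finset.le_sup (f := Prod.fst) (hs p hp))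
  have hY : ∀ p : PI, some p ∈ t → p.1.2 ∈ Y := fun p hp =>
    Finset.mem_filter.2 ⟨Finset.mem_image_of_mem _ (hs p hp), p.2⟩
  have hYm : ∀ y : Y, 0 ≤ (y : ℚ × ℚ).1 ∧ (y : ℚ × ℚ).1 < 1 ∧ 0 < (y : ℚ × ℚ).2 := fun y =>
    (Finset.mem_filter.1 y.2).2
  let e := Fintype.equivFin Y
  have h := V_fin hφ J (k := Fintype.card Y) (fun i => (e.symm i : ℚ × ℚ).1)
    (fun i => (e.symm i : ℚ × ℚ).2) (by
    intro i j h1 h2
    exact e.symm.injective (Subtype.ext (Prod.ext h1 h2))) (fun i => (hYm _).1)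
    (fun i => (hYm _).2.1) (fun i => (hYm _).2.2)
  let f : t → Option (Fin J × Fin (Fintype.card Y)) := fun o =>
    match o with
    | ⟨none, _⟩ => none
    | ⟨some p, hp⟩ => some (⟨p.1.1, hJ p hp⟩, e ⟨p.1.2, hY p hp⟩)
  have hf : Function.Injective f := by
    rintro ⟨o, ho⟩ ⟨o', ho'⟩ hoo
    cases o with
    | none =>
      cases o' with
      | none => rfl
      | some p' => exact absurd hoo (by simp [f])
    | some p =>
      cases o' with
      | none => exact absurd hoo (by simp [f])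
      | some p' =>
        simp only [f, Option.some.injEq, Prod.mk.injEq, Fin.mk.injEq] at hoo
        have h1 := e.injective hoo.2
        simp only [Subtype.mk.injEq] at h1
        have : p = p' := Subtype.ext (Prod.ext hoo.1 h1)
        subst this
        rfl
  have h2 := h.comp f hf
  convert h2 using 1
  ext ⟨o, ho⟩
  cases o with
  | none => rfl
  | some p => simp [f]

lemma V_sub (hφ : ∀ {ι : Type} (x : ι → ℝ), MeasM x → AlgebraicIndependent R (φ ∘ x))
    (S : Finset (ℕ × ℚ × ℚ)) (hS : ∀ p ∈ S, 0 ≤ p.2.1 ∧ p.2.1 < 1 ∧ 0 < p.2.2) :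
    AlgebraicIndependent R (φ ∘ fun o : Option S => o.elim (Real.exp 1) (fun p => V p.1)) := by
  let f : Option S → Option PI := Option.map fun p => ⟨p.1, hS p.1 p.2⟩
  have hf : Function.Injective f := by
    refine Option.map_injective ?_
    intro p p' h
    have h1 := congrArg (fun q : PI => q.1) h
    exact Subtype.ext h1
  have h2 := (V_all hφ).comp f hf
  convert h2 using 1
  ext o
  cases o <;> simp [f]

lemma exp_tr (hφ : ∀ {ι : Type} (x : ι → ℝ), MeasM x → AlgebraicIndependent R (φ ∘ x)) :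
    Transcendental R (φ (Real.exp 1)) := by
  have h := V_sub hφ ∅ (by simp)
  exact h.transcendental none

end

/-- the incomplete gamma integrals -/
noncomputable def Gu (a x : ℝ) : ℝ := ∫ t in Ioi x, t ^ (a - 1) * Real.exp (-t)

lemma Gu_eq (a : ℝ) {x : ℝ} (hx : 0 < x) : Real.exp (-x) * x ^ (a - 1) * ga a 0 x = Gu a x := by
  have h := Pool.Agent.R352.T.exp_ga (a := a) 0 hx
  simp only [pow_zero, one_mul, mul_one] at h
  exact h

/-- the constants: `γ + log x`, `ζ(l + 1)` for `a = 0`, `Γ(a)` for `a > 0`, `l = 0` -/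
noncomputable def Kt (p : ℕ × ℚ × ℚ) : ℝ :=
  if p.2.1 = 0 then (if p.1 = 0 then Real.eulerMascheroniConstant + Real.log p.2.2 else zt (p.1 + 1))
  else Real.Gamma p.2.1

/-- the tails: `δ(x)`, `R_(l+1)(x)` for `a = 0`, `Γ(a, x)` for `a > 0`, `l = 0` -/
noncomputable def Tt (p : ℕ × ℚ × ℚ) : ℝ :=
  if p.2.1 = 0 then (if p.1 = 0 then gz p.2.2 else Rk (p.1 + 1) p.2.2) else Gu p.2.1 p.2.2

/-- the names of the tails -/
def Ok (p : ℕ × ℚ × ℚ) : Prop := 0 ≤ p.2.1 ∧ p.2.1 < 1 ∧ 0 < p.2.2 ∧ (p.2.1 = 0 ∨ p.1 = 0)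

lemma V_mem {S : Set ℝ} (he : Real.exp 1 ∈ clF S) {p : ℕ × ℚ × ℚ} (hp : Ok p)
    (h1 : Kt p ∈ clF S) (h2 : Tt p ∈ clF S) : V p ∈ clF S := by
  obtain ⟨l, a, x⟩ := p
  obtain ⟨hp1, hp2, hp3, hp4⟩ := hp
  simp only at hp1 hp2 hp3 hp4
  have hx' : (0 : ℝ) < x := by exact_mod_cast hp3
  by_cases ha : a = 0
  · subst ha
    by_cases hl : l = 0
    · subst hl
      simp only [Kt, if_true] at h1
      simp only [Tt, if_true] at h2
      simp only [V, if_true, W]
      refine EE_mem hp3 he h1 1 (fun k hk hk' => by omega) ?_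
      rw [dl_one hx']
      exact h2
    · simp only [Kt, if_true, if_neg hl] at h1
      simp only [Tt, if_true, if_neg hl, Rk] at h2
      simp only [V, if_true, W, if_neg hl]
      have : Zk (l + 1) (x : ℝ) = zt (l + 1) - (zt (l + 1) - Zk (l + 1) x) := by ring
      rw [this]
      exact (clF S).sub_mem h1 h2
  · have hl : l = 0 := hp4.resolve_left ha
    subst hl
    have ha' : 0 < a := lt_of_le_of_ne hp1 (Ne.symm ha)
    simp only [Kt, if_neg ha] at h1
    simp only [Tt, if_neg ha] at h2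
    simp only [V, if_neg ha]
    refine EA_mem ha' hp3 he 0 ?_ ?_
    · rw [Pool.Agent.R352.T.NA_zero (by exact_mod_cast ha')]
      exact h1
    · have hexp : Real.exp (-(x : ℝ)) ∈ clF S := by
        have := exp_rat_mem he (-x)
        push_cast at this
        exact this
      have hpow : (x : ℝ) ^ ((a : ℝ) - 1) ∈ clF S := by
        have := Pool.Agent.R352.T.rpow_mem (T := S) hp3 (a - 1)
        push_cast at this
        exact this
      have hne : Real.exp (-(x : ℝ)) * (x : ℝ) ^ ((a : ℝ) - 1) ≠ 0 :=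
        mul_ne_zero (Real.exp_pos _).ne' (Real.rpow_pos_of_pos hx' _).ne'
      have h3 : ga a 0 x = Gu a x / (Real.exp (-(x : ℝ)) * (x : ℝ) ^ ((a : ℝ) - 1)) := by
        rw [← Gu_eq (a : ℝ) hx', mul_div_assoc, mul_comm, div_mul_cancel₀ _ hne]
      rw [h3]
      exact (clF S).div_mem h2 ((clF S).mul_mem hexp hpow)

end Pool.Agent.J6H54.LG
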