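import Pool.Agent.N743.SS.Multi
import Pool.Agent.J6H54.LG.Mat

/-!
# The residue field of a sequence of scales

For a sequence `h n ≥ 2` of scales we consider the hyperreal numbers of size at most a power of `h`,
modulo those smaller than all powers of `1 / h`. In this field the real numbers with a measure of
algebraic independence are algebraically independent over the integers of size at most a power of `h`.
-/

set_option autoImplicit false

open Filter Topology

namespace Pool.Agent.J6H54.LG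

open Pool.Agent.N743.SS

/-- the ultrafilter -/
noncomputable abbrev U : Ultrafilter ℕ := hyperfilter ℕ

/-- the hyperreal numbers -/
abbrev HR : Type := Germ (U : Filter ℕ) ℝ

/-- sequences to hyperreal numbers -/
noncomputable def co : (ℕ → ℝ) →+* HR := Germ.coeRingHom _

lemma co_le {f g : ℕ → ℝ} : co f ≤ co g ↔ ∀ᶠ n in (U : Filter ℕ), f n ≤ g n := Germ.coe_le

lemma co_lt {f g : ℕ → ℝ} : co f < co g ↔ ∀ᶠ n in (U : Filter ℕ), f n < g n := Germ.coe_lt

lemma co_abs (f : ℕ → ℝ) : |co f| = co (fun n => |f n|) := by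
  change |((f : ℕ → ℝ) : HR)| = ((fun n => |f n| : ℕ → ℝ) : HR)
  rw [Germ.abs_def]
  rfl

/-- constants -/
noncomputable def cst : ℝ →+* HR := co.comp (Pi.constRingHom ℕ ℝ)

lemma cst_eq (r : ℝ) : cst r = co (fun _ => r) := rfl

variable (h : ℕ → ℝ)

/-- the scales are at least `2` -/
class Sc : Prop where
  two_le : ∀ n, 2 ≤ h n

variable [hS : Sc h]

lemma two_le_co : (2 : HR) ≤ co h := by
  have : (2 : HR) = co (fun _ => 2) := by
    change _ = cst 2
    exact (map_ofNat cst 2).symm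
  rw [this, co_le]
  exact Eventually.of_forall hS.two_le

lemma one_le_co : (1 : HR) ≤ co h := le_trans one_le_two (two_le_co h)

lemma co_pos : (0 : HR) < co h := lt_of_lt_of_le zero_lt_one (one_le_co h)

/-- the hyperreal numbers of moderate size -/
noncomputable def Ov : ValuationSubring HR where
  carrier := {x | ∃ A : ℕ, |x| ≤ co h ^ A}
  mul_mem' := by
    rintro x y ⟨A, hA⟩ ⟨B, hB⟩
    refine ⟨A + B, ?_⟩
    rw [abs_mul, pow_add]
    exact mul_le_mul hA hB (abs_nonneg _) (pow_nonneg (co_pos h).le _)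
  one_mem' := ⟨0, by simp⟩
  add_mem' := by
    rintro x y ⟨A, hA⟩ ⟨B, hB⟩
    refine ⟨A + B + 1, (abs_add_le _ _).trans ?_⟩
    have h1 : co h ^ A ≤ co h ^ (A + B) := pow_le_pow_right₀ (one_le_co h) (by omega)
    have h2 : co h ^ B ≤ co h ^ (A + B) := pow_le_pow_right₀ (one_le_co h) (by omega)
    calc |x| + |y| ≤ 2 * co h ^ (A + B) := by linarith
      _ ≤ co h * co h ^ (A + B) :=
          mul_le_mul_of_nonneg_right (two_le_co h) (pow_nonneg (co_pos h).le _)
      _ = co h ^ (A + B + 1) := by ring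
  zero_mem' := ⟨0, by simp⟩
  neg_mem' := by
    rintro x ⟨A, hA⟩
    exact ⟨A, by rwa [abs_neg]⟩
  mem_or_inv_mem' := by
    intro x
    rcases le_total |x| 1 with h1 | h1
    · exact Or.inl ⟨0, by simpa using h1⟩
    · refine Or.inr ⟨0, ?_⟩
      rw [abs_inv, pow_zero]
      exact inv_le_one_of_one_le₀ h1

lemma mem_Ov {x : HR} : x ∈ Ov h ↔ ∃ A : ℕ, |x| ≤ co h ^ A := Iff.rfl

/-- the residue field -/
abbrev KK : Type := IsLocalRing.ResidueField (Ov h)

/-- the residue map -/
noncomputable abbrev res : Ov h →+* KK h := IsLocalRing.residue (Ov h)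

lemma res_eq_zero {x : Ov h} : res h x = 0 ↔ ∀ A : ℕ, |(x : HR)| * co h ^ A < 1 := by
  rw [IsLocalRing.residue_eq_zero_iff, IsLocalRing.mem_maximalIdeal, mem_nonunits_iff]
  constructor
  · intro hx A
    by_contra hcon
    push Not at hcon
    apply hx
    have hx0 : (x : HR) ≠ 0 := by
      intro h0
      rw [h0, abs_zero, zero_mul] at hcon
      exact absurd hcon (not_le.2 zero_lt_one)
    have hmem : (x : HR)⁻¹ ∈ Ov h := by
      refine ⟨A, ?_⟩
      rw [abs_inv, inv_le_iff_one_le_mul₀' (abs_pos.2 hx0)]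
      exact hcon
    refine IsUnit.of_mul_eq_one ⟨(x : HR)⁻¹, hmem⟩ ?_
    exact Subtype.ext (mul_inv_cancel₀ hx0)
  · intro hx hu
    obtain ⟨y, hy⟩ := hu.exists_right_inv
    have hy' : (x : HR) * y = 1 := congrArg Subtype.val hy
    obtain ⟨A, hA⟩ := y.2
    have h1 := hx A
    have h2 : (1 : HR) = |(x : HR)| * |(y : HR)| := by rw [← abs_mul, hy', abs_one]
    have h3 : |(x : HR)| * |(y : HR)| ≤ |(x : HR)| * co h ^ A := mul_le_mul_of_nonneg_left hA (abs_nonneg _)
    rw [← h2] at h3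
    exact absurd h1 (not_lt.2 h3)

lemma exists_pow (r : ℝ) : ∃ A : ℕ, ∀ n, |r| ≤ h n ^ A := by
  obtain ⟨A, hA⟩ := pow_unbounded_of_one_lt |r| (one_lt_two)
  exact ⟨A, fun n => hA.le.trans (pow_le_pow_left₀ zero_le_two (hS.two_le n) A)⟩

lemma cst_mem (r : ℝ) : cst r ∈ Ov h := by
  obtain ⟨A, hA⟩ := exists_pow h r
  refine ⟨A, ?_⟩
  rw [cst_eq, co_abs, ← map_pow, co_le]
  exact Eventually.of_forall hA

/-- the embedding of the real numbers -/
noncomputable def ph : ℝ →+* KK h := (res h).comp (cst.codRestrict (Ov h) (cst_mem h))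

lemma ph_eq (r : ℝ) : ph h r = res h ⟨cst r, cst_mem h r⟩ := rfl

/-- the integers of moderate size -/
def Zr : Subring (Ov h) where
  carrier := {z | ∃ f : ℕ → ℤ, (z : HR) = co (fun n => (f n : ℝ))}
  mul_mem' := by
    rintro x y ⟨f, hf⟩ ⟨g, hg⟩
    refine ⟨f * g, ?_⟩
    change (x : HR) * (y : HR) = _
    rw [hf, hg, ← map_mul]
    congr 1
    funext n
    simp
  one_mem' := ⟨1, by
    have h1 : (fun n : ℕ => (((1 : ℕ → ℤ) n : ℤ) : ℝ)) = 1 := by funext n; simp
    rw [h1, map_one]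
    rfl⟩
  add_mem' := by
    rintro x y ⟨f, hf⟩ ⟨g, hg⟩
    refine ⟨f + g, ?_⟩
    change (x : HR) + (y : HR) = _
    rw [hf, hg, ← map_add]
    congr 1
    funext n
    simp
  zero_mem' := ⟨0, by
    have h1 : (fun n : ℕ => (((0 : ℕ → ℤ) n : ℤ) : ℝ)) = 0 := by funext n; simp
    rw [h1, map_zero]
    rfl⟩
  neg_mem' := by
    rintro x ⟨f, hf⟩
    refine ⟨-f, ?_⟩
    change -(x : HR) = _
    rw [hf, ← map_neg]
    congr 1
    funext n
    simp

/-- their image in the residue field -/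
noncomputable def R0 : Subring (KK h) := (Zr h).map (res h)

instance : FaithfulSMul (R0 h) (KK h) :=
  (faithfulSMul_iff_algebraMap_injective _ _).2 Subtype.val_injective

/-- sequences of integers of moderate size -/
lemma seq_mem {f : ℕ → ℤ} {A : ℕ} (hf : ∀ᶠ n in (U : Filter ℕ), |(f n : ℝ)| ≤ h n ^ A) :
    co (fun n => (f n : ℝ)) ∈ Ov h := by
  refine ⟨A, ?_⟩
  rw [co_abs, ← map_pow, co_le]
  exact hf

lemma exists_seq (r : R0 h) : ∃ (f : ℕ → ℤ) (A : ℕ) (hf : ∀ᶠ n in (U : Filter ℕ), |(f n : ℝ)| ≤ h n ^ A),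
    res h ⟨co (fun n => (f n : ℝ)), seq_mem h hf⟩ = r := by
  obtain ⟨z, ⟨f, hf⟩, hz⟩ := r.2
  obtain ⟨A, hA⟩ := z.2
  have hA' : ∀ᶠ n in (U : Filter ℕ), |(f n : ℝ)| ≤ h n ^ A := by
    rw [hf, co_abs, ← map_pow, co_le] at hA
    exact hA
  refine ⟨f, A, hA', ?_⟩
  rw [← hz]
  congr 1
  exact Subtype.ext hf.symm

lemma seq_ne_zero {f : ℕ → ℤ} {A : ℕ} (hf : ∀ᶠ n in (U : Filter ℕ), |(f n : ℝ)| ≤ h n ^ A)
    (h0 : ∀ᶠ n in (U : Filter ℕ), f n ≠ 0) : res h ⟨co (fun n => (f n : ℝ)), seq_mem h hf⟩ ≠ 0 := by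
  intro hcon
  rw [res_eq_zero] at hcon
  have h1 := hcon 0
  rw [pow_zero, mul_one] at h1
  simp only at h1
  rw [co_abs, ← map_one co, co_lt] at h1
  obtain ⟨n, h2, h3⟩ := (h1.and h0).exists
  have h4 : (1 : ℝ) ≤ |(f n : ℝ)| := by
    rw [← Int.cast_abs]
    exact_mod_cast Int.one_le_abs h3
  simp only [Pi.one_apply] at h2
  linarith

lemma seq_zero {f : ℕ → ℤ} {A : ℕ} (hf : ∀ᶠ n in (U : Filter ℕ), |(f n : ℝ)| ≤ h n ^ A)
    (h0 : res h ⟨co (fun n => (f n : ℝ)), seq_mem h hf⟩ ≠ 0) : ∀ᶠ n in (U : Filter ℕ), f n ≠ 0 := by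
  by_contra hcon
  rw [Ultrafilter.eventually_not, not_not] at hcon
  apply h0
  rw [res_eq_zero]
  intro B
  have : co (fun n => (f n : ℝ)) = 0 := by
    rw [← map_zero co]
    refine Germ.coe_eq.2 ?_
    filter_upwards [hcon] with n hn
    simp [hn]
  simp only
  rw [this, abs_zero, zero_mul]
  exact zero_lt_one

/-- **real numbers with a measure of algebraic independence are independent over the integers of
moderate size** -/
theorem indep_of_measM {ι : Type} {x : ι → ℝ} (hx : MeasM x) :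
    AlgebraicIndependent (R0 h) (ph h ∘ x) := by
  classical
  rw [algebraicIndependent_iff]
  intro p hp
  by_contra hp0
  obtain ⟨s0, hs0⟩ := MvPolynomial.ne_zero_iff.1 hp0
  choose f A hf hr using fun s => exists_seq h (p.coeff s)
  obtain ⟨B, hB⟩ : ∃ B, B = p.support.sup A := ⟨_, rfl⟩
  let P : ℕ → MvPolynomial ι ℤ := fun n => ∑ s ∈ p.support, MvPolynomial.monomial s (f s n)
  have hcoef : ∀ n, ∀ s ∈ p.support, (P n).coeff s = f s n := by
    intro n s hs
    rw [MvPolynomial.coeff_sum, Finset.sum_eq_single s]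
    · rw [MvPolynomial.coeff_monomial, if_pos rfl]
    · intro t _ hts
      rw [MvPolynomial.coeff_monomial, if_neg hts]
    · intro h0
      exact absurd hs h0
  have hcoef' : ∀ n, ∀ s, s ∉ p.support → (P n).coeff s = 0 := by
    intro n s hs
    rw [MvPolynomial.coeff_sum]
    refine Finset.sum_eq_zero fun t ht => ?_
    rw [MvPolynomial.coeff_monomial, if_neg]
    rintro rfl
    exact hs ht
  have hs0' : s0 ∈ p.support := MvPolynomial.mem_support_iff.2 hs0
  obtain ⟨κ, c, hκ, hc, hm⟩ := hx p.totalDegree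
  -- the value is infinitesimal
  have hval : ∀ C : ℕ, ∀ᶠ n in (U : Filter ℕ), |MvPolynomial.aeval x (P n)| * h n ^ C < 1 := by
    have e1 : (MvPolynomial.aeval (ph h ∘ x)) p = res h (∑ s ∈ p.support,
        (⟨co (fun n => (f s n : ℝ)), seq_mem h (hf s)⟩ : Ov h) *
          ⟨cst (s.prod fun i k => x i ^ k), cst_mem h _⟩) := by
      conv_lhs => rw [MvPolynomial.as_sum p, map_sum]
      rw [map_sum]
      refine Finset.sum_congr rfl fun s _ => ?_
      rw [MvPolynomial.aeval_monomial, map_mul, hr s]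
      congr 1
      change _ = ph h (s.prod fun i k => x i ^ k)
      rw [map_finsuppProd]
      simp only [map_pow, Function.comp_apply]
    rw [e1, res_eq_zero] at hp
    intro C
    have h1 := hp C
    have e2 : ((∑ s ∈ p.support, (⟨co (fun n => (f s n : ℝ)), seq_mem h (hf s)⟩ : Ov h) *
          ⟨cst (s.prod fun i k => x i ^ k), cst_mem h _⟩ : Ov h) : HR) =
        co (fun n => MvPolynomial.aeval x (P n)) := by
      rw [AddSubmonoidClass.coe_finsetSum]
      have e3 : (fun n => MvPolynomial.aeval x (P n)) = ∑ s ∈ p.support,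
          (fun n => (f s n : ℝ)) * (fun _ => s.prod fun i k => x i ^ k) := by
        funext n
        rw [map_sum, Finset.sum_apply]
        refine Finset.sum_congr rfl fun s _ => ?_
        rw [MvPolynomial.aeval_monomial]
        rfl
      rw [e3, map_sum]
      refine Finset.sum_congr rfl fun s _ => ?_
      rw [map_mul]
      rfl
    rw [e2, co_abs, ← map_pow, ← map_mul, ← map_one co, co_lt] at h1
    exact h1
  -- the polynomial is nonzero and of moderate size
  have hne : ∀ᶠ n in (U : Filter ℕ), P n ≠ 0 := by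
    have h1 := seq_zero h (hf s0) (by
      rw [hr s0]
      intro h0
      exact hs0 (Subtype.ext h0))
    filter_upwards [h1] with n hn h0
    apply hn
    rw [← hcoef n s0 hs0', h0, MvPolynomial.coeff_zero]
  have hsz : ∀ᶠ n in (U : Filter ℕ), ∀ s ∈ p.support, |(f s n : ℝ)| ≤ h n ^ B := by
    rw [Filter.eventually_all_finset]
    intro s hs
    filter_upwards [hf s] with n hn
    refine hn.trans (pow_le_pow_right₀ (by linarith [hS.two_le n]) ?_)
    rw [hB]
    exact Finset.le_sup hs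
  obtain ⟨C, hC⟩ : ∃ C : ℕ, 1 / c < 2 ^ C := by
    obtain ⟨C, hC⟩ := pow_unbounded_of_one_lt (1 / c) (one_lt_two)
    exact ⟨C, hC⟩
  obtain ⟨n, h1, h2, h3⟩ := ((hval (⌈κ⌉₊ * B + C)).and (hne.and hsz)).exists
  have hn2 := hS.two_le n
  have hn0 : 0 < h n := by linarith
  have hdeg : (P n).totalDegree ≤ p.totalDegree := by
    refine Finset.sup_le fun t ht => MvPolynomial.le_totalDegree ?_
    by_contra hcon
    rw [MvPolynomial.mem_support_iff] at ht
    exact ht (hcoef' n t hcon)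
  have h4 := hm (P n) h2 hdeg (h n ^ B) (fun s => by
    by_cases hs : s ∈ p.support
    · rw [hcoef n s hs]
      exact h3 s hs
    · rw [hcoef' n s hs, Int.cast_zero, abs_zero]
      positivity)
  have h5 : c ≤ |MvPolynomial.aeval x (P n)| * (h n ^ B) ^ (⌈κ⌉₊) := by
    have h6 : (1 : ℝ) ≤ h n ^ B := one_le_pow₀ (by linarith)
    have h7 : (h n ^ B) ^ κ ≤ (h n ^ B) ^ ⌈κ⌉₊ := by
      rw [← Real.rpow_natCast (h n ^ B) ⌈κ⌉₊]
      exact Real.rpow_le_rpow_of_exponent_le h6 (Nat.le_ceil κ)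
    have h8 : 0 < (h n ^ B) ^ κ := by positivity
    rw [Real.rpow_neg (by positivity), ← div_eq_mul_inv, div_le_iff₀ h8] at h4
    exact h4.trans (mul_le_mul_of_nonneg_left h7 (abs_nonneg _))
  have h9 : c * h n ^ C < 1 := by
    calc c * h n ^ C ≤ |MvPolynomial.aeval x (P n)| * (h n ^ B) ^ (⌈κ⌉₊) * h n ^ C :=
          mul_le_mul_of_nonneg_right h5 (by positivity)
      _ = |MvPolynomial.aeval x (P n)| * h n ^ (⌈κ⌉₊ * B + C) := by
          rw [← pow_mul, mul_assoc, ← pow_add]
          congr 2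
          ring
      _ < 1 := h1
  have h10 : (2 : ℝ) ^ C ≤ h n ^ C := pow_le_pow_left₀ zero_le_two hn2 C
  rw [div_lt_iff₀ hc] at hC
  nlinarith

end Pool.Agent.J6H54.LG
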