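import Pool.Agent.J6H54.LG.Near
import Pool.Agent.J6H54.LG.Gen

/-!
# Joint measures for constants and tails
-/

set_option autoImplicit false

open Filter Topology Set MeasureTheory

namespace Pool.Agent.J6H54.LG

open Pool.Agent.R352.E (clF subset_clF clF_mono)
open Pool.Agent.N743.SS

/-- constants and tails at one scale -/
theorem joint_tails {κ : Type} [Fintype κ] (y : κ → ℝ) (S : Finset (ℕ × ℚ × ℚ))
    (hS : ∀ p ∈ S, Ok p ∧ Kt p ∈ clF ({Real.exp 1} ∪ range y))
    (D : ℕ) : ∃ C : ℕ, ∀ H : ℝ, 2 ≤ H → ∀ T : Finset (κ ⊕ S),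
      (∀ k ∈ T, Near D H (1 / H ^ C) (Real.exp 1) (Sum.elim y (fun p => Tt p.1) k)) →
      T.card ≤ Fintype.card κ := by
  classical
  obtain ⟨C, hC⟩ := joint (ι := Option S) (κ := κ ⊕ S) (Real.exp 1)
    (fun h _ => exp_tr (fun x hx => indep_of_measM h hx))
    (fun o : Option S => o.elim (Real.exp 1) (fun p => V p.1))
    (fun h _ => V_sub (fun x hx => indep_of_measM h hx) S (fun p hp => ⟨(hS p hp).1.1, (hS p hp).1.2.1, (hS p hp).1.2.2.1⟩))
    (Sum.elim y (fun p => Tt p.1)) (fun o => by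
      have he : Real.exp 1 ∈ clF ({Real.exp 1} ∪ range (Sum.elim y fun p : S => Tt p.1)) :=
        subset_clF _ (Or.inl rfl)
      cases o with
      | none => exact he
      | some p =>
        refine V_mem he (hS p.1 p.2).1 (clF_mono ?_ (hS p.1 p.2).2) (subset_clF _ (Or.inr ⟨Sum.inr p, rfl⟩))
        refine union_subset_union_right _ ?_
        rintro _ ⟨i, rfl⟩
        exact ⟨Sum.inl i, rfl⟩) D
  refine ⟨C, fun H hH T hT => ?_⟩
  have h := hC H hH T hT
  simp only [Fintype.card_option, Fintype.card_coe, Fintype.card_sum] at h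
  omega

/-- the same with names -/
theorem joint_tails' {κ : Type} [Fintype κ] (y : κ → ℝ) (S : Finset (ℕ × ℚ × ℚ))
    (hS : ∀ p ∈ S, Ok p ∧ Kt p ∈ clF ({Real.exp 1} ∪ range y))
    (D : ℕ) : ∃ C : ℕ, ∀ H : ℝ, 2 ≤ H → ∀ T : Finset (κ ⊕ (ℕ × ℚ × ℚ)),
      (∀ p, Sum.inr p ∈ T → p ∈ S) →
      (∀ k ∈ T, Near D H (1 / H ^ C) (Real.exp 1) (Sum.elim y Tt k)) →
      T.card ≤ Fintype.card κ := by
  classical
  obtain ⟨C, hC⟩ := joint_tails y S hS D
  refine ⟨C, fun H hH T hTS hT => ?_⟩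
  let emb : κ ⊕ S → κ ⊕ (ℕ × ℚ × ℚ) := Sum.map id Subtype.val
  have hemb : Function.Injective emb :=
    Function.Injective.sumMap Function.injective_id Subtype.val_injective
  have hcard : (T.preimage emb hemb.injOn).card = T.card := by
    rw [Finset.card_preimage, Finset.filter_true_of_mem]
    intro i hi
    rcases i with i | p
    · exact ⟨Sum.inl i, rfl⟩
    · exact ⟨Sum.inr ⟨p, hTS p hi⟩, rfl⟩
  rw [← hcard]
  refine hC H hH _ fun k hk => ?_
  have h1 := hT _ (Finset.mem_preimage.1 hk)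
  rcases k with k | k
  · exact h1
  · exact h1

end Pool.Agent.J6H54.LG
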